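import Mathlib

/-!
# Square-free words whose initial non-repetitive complexity is at most `2 n`
-/

set_option autoImplicit false

namespace Pool.Agent.R123.Nsc

/-- the infinite word `y` has no square -/
def SquareFree (y : ℕ → ℕ) : Prop := ∀ i p, 0 < p → ∃ t, t < p ∧ y (i + t) ≠ y (i + p + t)

/-- for every `n ≥ 1` two equal factors of length `n` begin at places `i < j ≤ 2 n` -/
def Rep (y : ℕ → ℕ) : Prop :=
  ∀ n, 1 ≤ n → ∃ i j, i < j ∧ j ≤ 2 * n ∧ ∀ t, t < n → y (i + t) = y (j + t)

theorem SquareFree.not {y : ℕ → ℕ} (sf : SquareFree y) {i p : ℕ} (hp : 0 < p)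
    (h : ∀ t, t < p → y (i + t) = y (i + p + t)) : False := by
  obtain ⟨t, ht, hne⟩ := sf i p hp
  exact hne (h t ht)

/-- equal factors of length `n` are at distance more than `n` -/
theorem SquareFree.dist {y : ℕ → ℕ} (sf : SquareFree y) {i j n : ℕ} (hij : i < j)
    (h : ∀ t, t < n → y (i + t) = y (j + t)) : i + n + 1 ≤ j := by
  by_contra hcon
  obtain ⟨p, rfl⟩ : ∃ p, j = i + p := ⟨j - i, by omega⟩
  exact sf.not (i := i) (p := p) (by omega) (fun t ht => h t (by omega))

section step

variable {y : ℕ → ℕ} (sf : SquareFree y) {m : ℕ} (hm : 1 ≤ m)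
  (h1 : ∀ p, p + 1 < m → y (m + p) = y p) (h2 : ∀ p, p + 1 < m → y p ≠ y (m - 1))
  (h3 : ∀ p, p + 1 < 2 * m → y p ≠ y (2 * m - 1))

include hm h1 in
theorem per (p : ℕ) (hp : p + 1 < 2 * m) : y p = y (p % m) := by
  rcases Nat.lt_or_ge p m with h | h
  · rw [Nat.mod_eq_of_lt h]
  · obtain ⟨q, rfl⟩ : ∃ q, p = m + q := ⟨p - m, by omega⟩
    rw [h1 q (by omega), Nat.add_mod_left, Nat.mod_eq_of_lt (by omega)]

include sf hm in
/-- a square with period `m` -/
theorem sq_m {a : ℕ} (h : ∀ t, t < 2 * m → y (2 * m + t) = y ((a + t) % m)) : False := by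
  refine sf.not (i := 2 * m) (p := m) hm (fun t ht => ?_)
  rw [h t (by omega), add_assoc, h (m + t) (by omega)]
  congr 1
  rw [show a + (m + t) = a + t + m by ring, Nat.add_mod_right]

include sf hm h1 in
/-- a square whose halves end with the new letter -/
theorem sq_c {a : ℕ} (ha : a < m) (h : ∀ t, a + t + 1 < 2 * m → y (2 * m + t) = y ((a + t) % m))
    (hc : y (2 * m + (2 * m - 1 - a)) = y (2 * m - 1)) : False := by
  refine sf.not (i := a) (p := 2 * m - a) (by omega) (fun t ht => ?_)
  rw [show a + (2 * m - a) + t = 2 * m + t by omega]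
  rcases Nat.lt_or_ge (a + t + 1) (2 * m) with h4 | h4
  · rw [h t h4, per hm h1 _ h4]
  · rw [show t = 2 * m - 1 - a by omega, hc, show a + (2 * m - 1 - a) = 2 * m - 1 by omega]

include sf hm h1 h2 h3 in
theorem extend {a n g M : ℕ} (ha : a < m) (hn : m ≤ n) (hn2 : n + 2 ≤ 2 * m)
    (hM : M = m ∨ M = 2 * m) (hMg : M ≤ g) (hgM : g + 1 ≤ M + m) (hg1 : a + n ≤ g)
    (hg2 : M + n ≤ g + m)
    (hV : ∀ t, a + t < g → y (2 * m + t) = y ((a + t) % m))
    {i e : ℕ} (he : e + 2 * m ≤ 2 * (n + 1)) (hi : i + n + 2 ≤ 2 * m + e)
    (hw : ∀ t, t < n + 1 → y (2 * m + e + t) = y (i + t)) :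
    i + n + 2 ≤ 2 * m ∧ (∃ w, a + e = i + m * w) ∧
      ∀ t, t < e + n + 1 → y (2 * m + t) = y ((a + t) % m) := by
  have hmod : ∀ u, (M + u) % m = u % m := by
    intro u
    rcases hM with rfl | rfl
    · rw [Nat.add_mod_left]
    · rw [two_mul, add_assoc, Nat.add_mod_left, Nat.add_mod_left]
  have heg : a + e ≤ g := by omega
  -- the last known place with the letter `k`
  have hk : y (2 * m + (M - 1 - a)) = y (m - 1) := by
    rw [hV (M - 1 - a) (by omega)]
    congr 1
    rcases hM with rfl | rfl
    · rw [show a + (M - 1 - a) = M - 1 by omega, Nat.mod_eq_of_lt (by omega)]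
    · rw [show a + (2 * m - 1 - a) = m + (m - 1) by omega, Nat.add_mod_left,
        Nat.mod_eq_of_lt (by omega)]
  rcases Nat.lt_or_ge i m with him | him
  · -- the window begins before the place `m`
    have hkw : y (2 * m + (e + (m - 1 - i))) = y (m - 1) := by
      have := hw (m - 1 - i) (by omega)
      rw [show i + (m - 1 - i) = m - 1 by omega] at this
      rw [← this]
      congr 1
      omega
    have hcong : ∃ w, a + e = i + m * w := by
      rcases Nat.lt_or_ge (a + (e + (m - 1 - i))) g with hlt | hge
      · -- the letter `k` of the window is known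
        rw [hV _ hlt] at hkw
        have h4 : (a + (e + (m - 1 - i))) % m = m - 1 := by
          by_contra hne
          have h5 := Nat.mod_lt (a + (e + (m - 1 - i))) (show 0 < m by omega)
          exact h2 _ (by omega) hkw
        have h5 := Nat.div_add_mod (a + (e + (m - 1 - i))) m
        rw [h4] at h5
        exact ⟨(a + (e + (m - 1 - i))) / m, by omega⟩
      · -- the letter `k` of the window is not known
        have hMe : M ≤ a + e := by
          by_contra hcon
          have h4 := hw (M - 1 - a - e) (by omega)
          rw [show 2 * m + e + (M - 1 - a - e) = 2 * m + (M - 1 - a) by omega, hk] at h4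
          exact h2 (i + (M - 1 - a - e)) (by omega) h4.symm
        obtain ⟨q, hq⟩ : ∃ q, a + e = M + q := ⟨a + e - M, by omega⟩
        rcases lt_trichotomy q i with hqi | hqi | hqi
        · exfalso
          -- the overlap
          have h4 : g - (a + e) + 1 ≤ i - q := by
            by_contra hcon
            refine sf.not (i := q) (p := i - q) (by omega) (fun u hu => ?_)
            rw [show q + (i - q) + u = i + u by omega, ← hw u (by omega), add_assoc,
              hV (e + u) (by omega), show a + (e + u) = M + (q + u) by omega, hmod,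
              Nat.mod_eq_of_lt (by omega)]
          refine sf.not (i := 2 * m + (M + i - m - a)) (p := m - i + q) (by omega)
            (fun t ht => ?_)
          rw [show 2 * m + (M + i - m - a) + (m - i + q) + t = 2 * m + e + t by omega,
            hw t (by omega), per hm h1 (i + t) (by omega), add_assoc,
            hV (M + i - m - a + t) (by omega)]
          congr 1
          rcases hM with rfl | rfl
          · congr 1
            omega
          · rw [show a + (2 * m + i - m - a + t) = m + (i + t) by omega, Nat.add_mod_left]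
        · rcases hM with rfl | rfl
          · exact ⟨1, by omega⟩
          · exact ⟨2, by omega⟩
        · exfalso
          refine sf.not (i := 2 * m + (e - (q - i))) (p := q - i) (by omega) (fun t ht => ?_)
          rw [show 2 * m + (e - (q - i)) + (q - i) + t = 2 * m + e + t by omega,
            hw t (by omega), add_assoc, hV _ (by omega),
            show a + (e - (q - i) + t) = M + (i + t) by omega, hmod,
            Nat.mod_eq_of_lt (by omega)]
    obtain ⟨w, hw'⟩ := hcong
    have hpre : ∀ t, t < e + n + 1 → t + i + 1 < e + 2 * m → y (2 * m + t) = y ((a + t) % m) := by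
      intro t ht ht2
      rcases Nat.lt_or_ge t e with h4 | h4
      · exact hV t (by omega)
      · obtain ⟨s, rfl⟩ : ∃ s, t = e + s := ⟨t - e, by omega⟩
        rw [← add_assoc, hw s (by omega), per hm h1 _ (by omega),
          show a + (e + s) = m * w + (i + s) by omega, Nat.mul_add_mod]
    rcases Nat.lt_or_ge (i + n + 1) (2 * m) with hc | hc
    · exact ⟨by omega, ⟨w, hw'⟩, fun t ht => hpre t ht (by omega)⟩
    · exfalso
      have hcc : y (2 * m + (e + 2 * m - 1 - i)) = y (2 * m - 1) := by
        have := hw (2 * m - 1 - i) (by omega)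
        rw [show i + (2 * m - 1 - i) = 2 * m - 1 by omega] at this
        rw [← this]
        congr 1
        omega
      rcases Nat.eq_zero_or_pos w with rfl | hw0
      · rw [mul_zero, add_zero] at hw'
        apply sq_c sf hm h1 ha
        · intro t ht
          exact hpre t (by omega) (by omega)
        · rw [show 2 * m - 1 - a = e + 2 * m - 1 - i by omega]
          exact hcc
      · have h5 : m ≤ m * w := Nat.le_mul_of_pos_right m hw0
        exact sq_m sf hm (a := a) (fun t ht => hpre t (by omega) (by omega))
  · -- the window begins at or after the place `m`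
    exfalso
    obtain ⟨i', rfl⟩ : ∃ i', i = m + i' := ⟨i - m, by omega⟩
    have hcc : y (2 * m + (e + (m - 1 - i'))) = y (2 * m - 1) := by
      have := hw (m - 1 - i') (by omega)
      rw [show m + i' + (m - 1 - i') = 2 * m - 1 by omega] at this
      rw [← this]
      congr 1
      omega
    have hge : g ≤ a + (e + (m - 1 - i')) := by
      by_contra hcon
      rw [hV _ (by omega)] at hcc
      have h5 := Nat.mod_lt (a + (e + (m - 1 - i'))) (show 0 < m by omega)
      exact h3 _ (by omega) hcc
    have hw2 : ∀ t, t + i' + 1 < m → y (2 * m + e + t) = y (i' + t) := by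
      intro t ht
      rw [hw t (by omega), add_assoc, h1 _ (by omega)]
    have hMe : M ≤ a + e := by
      by_contra hcon
      have h4 := hw2 (M - 1 - a - e) (by omega)
      rw [show 2 * m + e + (M - 1 - a - e) = 2 * m + (M - 1 - a) by omega, hk] at h4
      exact h2 (i' + (M - 1 - a - e)) (by omega) h4.symm
    obtain ⟨q, hq⟩ : ∃ q, a + e = M + q := ⟨a + e - M, by omega⟩
    rcases lt_trichotomy q i' with hqi | hqi | hqi
    · have h4 : g - (a + e) + 1 ≤ i' - q := by
        by_contra hcon
        refine sf.not (i := q) (p := i' - q) (by omega) (fun u hu => ?_)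
        rw [show q + (i' - q) + u = i' + u by omega, ← hw2 u (by omega), add_assoc,
          hV (e + u) (by omega), show a + (e + u) = M + (q + u) by omega, hmod,
          Nat.mod_eq_of_lt (by omega)]
      omega
    · subst hqi
      have hpre : ∀ t, t < e + (m - 1 - q) → y (2 * m + t) = y ((a + t) % m) := by
        intro t ht
        rcases Nat.lt_or_ge t e with h4 | h4
        · exact hV t (by omega)
        · obtain ⟨s, rfl⟩ : ∃ s, t = e + s := ⟨t - e, by omega⟩
          rw [← add_assoc, hw2 s (by omega), show a + (e + s) = M + (q + s) by omega, hmod,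
            Nat.mod_eq_of_lt (by omega)]
      rcases hM with rfl | rfl
      · apply sq_c sf hm h1 ha
        · intro t ht
          exact hpre t (by omega)
        · rw [show 2 * M - 1 - a = e + (M - 1 - q) by omega]
          exact hcc
      · exact sq_m sf hm (a := a) (fun t ht => hpre t (by omega))
    · refine sf.not (i := 2 * m + (e - (q - i'))) (p := q - i') (by omega) (fun t ht => ?_)
      rw [show 2 * m + (e - (q - i')) + (q - i') + t = 2 * m + e + t by omega,
        hw2 t (by omega), add_assoc, hV _ (by omega),
        show a + (e - (q - i') + t) = M + (i' + t) by omega, hmod,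
        Nat.mod_eq_of_lt (by omega)]

include sf hm h3 in
/-- equal factors of length between `m` and `2 m - 1`: the second one begins after the new letter -/
theorem second_late {i j n : ℕ} (hn : m ≤ n) (hij : i < j) (hj : j ≤ 2 * n)
    (h : ∀ t, t < n → y (i + t) = y (j + t)) : 2 * m ≤ j := by
  by_contra hcon
  have hd := sf.dist hij h
  have h4 := h (2 * m - 1 - j) (by omega)
  rw [show j + (2 * m - 1 - j) = 2 * m - 1 by omega] at h4
  exact h3 _ (by omega) h4

include sf hm h1 h2 h3 in
theorem next (hr : Rep y) (p : ℕ) (hp : p + 1 < 2 * m) : y (2 * m + p) = y p := by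
  obtain ⟨a, j, haj, hj, h⟩ := hr m hm
  have hj2 := second_late sf hm h3 le_rfl haj hj h
  have hd := sf.dist haj h
  have hj3 : j = 2 * m := by omega
  subst hj3
  have ha : a < m := by omega
  have hD : ∀ n, m ≤ n → n + 1 ≤ 2 * m → ∀ t, a + t < (if a + n + 1 ≤ 2 * m then a + n else n + m) →
      y (2 * m + t) = y ((a + t) % m) := by
    intro n hn
    induction n, hn using Nat.le_induction with
    | base =>
      intro _ t ht
      rw [if_pos (by omega)] at ht
      rw [← h t (by omega), per hm h1 _ (by omega)]
    | succ n hn ih =>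
      intro hn2 t ht
      have ih' := ih (by omega)
      obtain ⟨i, j, hij, hj, hw⟩ := hr (n + 1) (by omega)
      have hj2 := second_late sf hm h3 (by omega) hij hj hw
      have hd := sf.dist hij hw
      obtain ⟨e, rfl⟩ : ∃ e, j = 2 * m + e := ⟨j - 2 * m, by omega⟩
      have hext : i + n + 2 ≤ 2 * m ∧ (∃ w, a + e = i + m * w) ∧
          ∀ t, t < e + n + 1 → y (2 * m + t) = y ((a + t) % m) := by
        rcases Nat.lt_or_ge (2 * m) (a + n + 1) with hc | hc
        · rw [if_neg (by omega)] at ih'
          exact extend sf hm h1 h2 h3 (a := a) (n := n) (g := n + m) (M := 2 * m) ha hn (by omega)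
            (Or.inr rfl) (by omega) (by omega) (by omega) (by omega) ih' (by omega) (by omega)
            (fun t ht => (hw t ht).symm)
        · rw [if_pos (by omega)] at ih'
          exact extend sf hm h1 h2 h3 (a := a) (n := n) (g := a + n) (M := m) ha hn (by omega)
            (Or.inl rfl) (by omega) (by omega) (by omega) (by omega) ih' (by omega) (by omega)
            (fun t ht => (hw t ht).symm)
      obtain ⟨h4, ⟨w, h5⟩, h6⟩ := hext
      apply h6
      split_ifs at ht with hc
      · omega
      · have hw0 : 0 < w := by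
          by_contra hw0
          have : w = 0 := by omega
          subst this
          omega
        have h7 : m ≤ m * w := Nat.le_mul_of_pos_right m hw0
        omega
  have hfin := hD (2 * m - 1) (by omega) (by omega)
  rcases Nat.eq_zero_or_pos a with rfl | ha0
  · rw [if_pos (by omega)] at hfin
    rw [hfin p (by omega), per hm h1 p hp, zero_add]
  · exfalso
    rw [if_neg (by omega)] at hfin
    exact sq_m sf hm (a := a) (fun t ht => hfin t (by omega))

end step

/-- the properties of the beginning of length `2 m` -/
structure Good (y : ℕ → ℕ) (m : ℕ) : Prop where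
  h1 : ∀ p, p + 1 < m → y (m + p) = y p
  h2 : ∀ p, p + 1 < m → y p ≠ y (m - 1)
  h3 : ∀ p, p + 1 < 2 * m → y p ≠ y (2 * m - 1)
  h4 : ∀ s, (∀ p, p + 1 < 2 * m → y (s + p) = y p) → ∀ p, p + 1 < 2 * m →
    y (s + (2 * m - 1)) ≠ y p

theorem good_one {y : ℕ → ℕ} (sf : SquareFree y) : Good y 1 := by
  refine ⟨fun p hp => by omega, fun p hp => by omega, ?_, ?_⟩
  · intro p hp h
    have : p = 0 := by omega
    subst this
    refine sf.not (i := 0) (p := 1) one_pos (fun t ht => ?_)
    have : t = 0 := by omega
    subst this
    exact h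
  · intro s hs p hp h
    have : p = 0 := by omega
    subst this
    refine sf.not (i := s) (p := 1) one_pos (fun t ht => ?_)
    have : t = 0 := by omega
    subst this
    rw [hs 0 (by omega)]
    exact h.symm

theorem good_double {y : ℕ → ℕ} (sf : SquareFree y) (hr : Rep y) {m : ℕ} (hm : 1 ≤ m)
    (hg : Good y m) : Good y (2 * m) := by
  obtain ⟨h1, h2, h3, h4⟩ := hg
  have hn := next sf hm h1 h2 h3 hr
  have h4' : ∀ s, (∀ p, p + 1 < 2 * (2 * m) → y (s + p) = y p) → ∀ p, p + 1 < 2 * (2 * m) →
      y (s + (2 * (2 * m) - 1)) ≠ y p := by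
    intro s hs p hp
    have h5 : ∀ p, p + 1 < 2 * m → y (s + 2 * m + p) = y p := by
      intro p hp
      rw [add_assoc, hs (2 * m + p) (by omega), hn p hp]
    have h6 : ∀ p, p + 1 < 2 * m → y (s + (2 * (2 * m) - 1)) ≠ y p := by
      intro p hp
      rw [show s + (2 * (2 * m) - 1) = s + 2 * m + (2 * m - 1) by omega]
      exact h4 _ h5 p hp
    rcases Nat.lt_or_ge (p + 1) (2 * m) with hlt | hge
    · exact h6 p hlt
    · rcases Nat.eq_or_lt_of_le hge with heq | hgt
      · intro hcon
        refine sf.not (i := s) (p := 2 * m) (by omega) (fun t ht => ?_)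
        rcases Nat.lt_or_ge (t + 1) (2 * m) with h7 | h7
        · rw [hs t (by omega), h5 t h7]
        · have : t = p := by omega
          subst this
          rw [hs t (by omega), show s + 2 * m + t = s + (2 * (2 * m) - 1) by omega, hcon]
      · obtain ⟨q, rfl⟩ : ∃ q, p = 2 * m + q := ⟨p - 2 * m, by omega⟩
        rw [hn q (by omega)]
        exact h6 q (by omega)
  refine ⟨hn, h3, ?_, h4'⟩
  intro p hp
  have h7 : ∀ p, p + 1 < 2 * m → y (2 * (2 * m) - 1) ≠ y p := by
    intro p hp
    rw [show 2 * (2 * m) - 1 = 2 * m + (2 * m - 1) by omega]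
    exact h4 (2 * m) hn p hp
  rcases Nat.lt_or_ge (p + 1) (2 * m) with hlt | hge
  · exact (h7 p hlt).symm
  · rcases Nat.eq_or_lt_of_le hge with heq | hgt
    · intro hcon
      refine sf.not (i := 0) (p := 2 * m) (by omega) (fun t ht => ?_)
      rw [zero_add, zero_add]
      rcases Nat.lt_or_ge (t + 1) (2 * m) with h8 | h8
      · exact (hn t h8).symm
      · have : t = p := by omega
        subst this
        rw [hcon]
        congr 1
        omega
    · obtain ⟨q, rfl⟩ : ∃ q, p = 2 * m + q := ⟨p - 2 * m, by omega⟩
      rw [hn q (by omega)]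
      exact (h7 q (by omega)).symm

theorem good_pow {y : ℕ → ℕ} (sf : SquareFree y) (hr : Rep y) (k : ℕ) : Good y (2 ^ k) := by
  induction k with
  | zero => exact good_one sf
  | succ k ih =>
    rw [pow_succ, mul_comm]
    exact good_double sf hr Nat.one_le_two_pow ih

end Pool.Agent.R123.Nsc
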