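import Pool.Agent.R123.Nsc.Main

/-!
# The ruler sequence
-/

set_option autoImplicit false

namespace Pool.Agent.R123.Nsc

/-- the Zimin words -/
def Z : ℕ → List ℕ
  | 0 => []
  | k + 1 => Z k ++ [k] ++ Z k

/-- every Zimin word is a beginning of the infinite word `x` -/
def IsRuler (x : ℕ → ℕ) : Prop := ∀ k, Z k = (List.range (Z k).length).map x

/-- the ruler sequence -/
def ruler (n : ℕ) : ℕ :=
  if n + 1 = 2 ^ Nat.log 2 (n + 1) then Nat.log 2 (n + 1) else ruler (n - 2 ^ Nat.log 2 (n + 1))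
termination_by n
decreasing_by
  have h1 : 2 ^ Nat.log 2 (n + 1) ≤ n + 1 := Nat.pow_log_le_self 2 (by omega)
  have h2 : 0 < 2 ^ Nat.log 2 (n + 1) := by positivity
  omega

theorem ruler_pow (k : ℕ) : ruler (2 ^ k - 1) = k := by
  have h : 2 ^ k - 1 + 1 = 2 ^ k := Nat.sub_add_cancel Nat.one_le_two_pow
  rw [ruler, h, Nat.log_pow (by norm_num), if_pos rfl]

theorem ruler_add (k p : ℕ) (hp : p + 1 < 2 ^ k) : ruler (2 ^ k + p) = ruler p := by
  have h : Nat.log 2 (2 ^ k + p + 1) = k :=
    (Nat.log_eq_iff (Or.inr ⟨by norm_num, by omega⟩)).2 ⟨by omega, by rw [pow_succ]; omega⟩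
  rw [ruler, h, if_neg (by omega), Nat.add_sub_cancel_left]

theorem Z_length (k : ℕ) : (Z k).length = 2 ^ k - 1 := by
  induction k with
  | zero => rfl
  | succ k ih =>
    rw [Z, List.length_append, List.length_append, ih, pow_succ]
    have : 1 ≤ 2 ^ k := Nat.one_le_two_pow
    simp only [List.length_cons, List.length_nil]
    omega

theorem isRuler_ruler : IsRuler ruler := by
  intro k
  rw [Z_length]
  induction k with
  | zero => rfl
  | succ k ih =>
    have h1 : 1 ≤ 2 ^ k := Nat.one_le_two_pow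
    rw [Z, show 2 ^ (k + 1) - 1 = (2 ^ k - 1) + 1 + (2 ^ k - 1) by rw [pow_succ]; omega,
      List.range_add, List.map_append, List.range_succ, List.map_append, ← ih]
    congr 1
    · simp [ruler_pow]
    · rw [List.map_map]
      conv_lhs => rw [ih]
      apply List.map_congr_left
      intro p hp
      rw [List.mem_range] at hp
      rw [Function.comp_apply, show 2 ^ k - 1 + 1 + p = 2 ^ k + p by omega, ruler_add k p (by omega)]

/-- a square-free word with property `Rep` is the ruler sequence up to the names of the letters -/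
theorem eq_ruler {y : ℕ → ℕ} (sf : SquareFree y) (hr : Rep y) (n : ℕ) :
    y n = y (2 ^ ruler n - 1) := by
  induction n using Nat.strong_induction_on with
  | _ n ih =>
  have h1 : 2 ^ Nat.log 2 (n + 1) ≤ n + 1 := Nat.pow_log_le_self 2 (by omega)
  have h2 : n + 1 < 2 ^ (Nat.log 2 (n + 1) + 1) := Nat.lt_pow_succ_log_self (by norm_num) _
  generalize Nat.log 2 (n + 1) = k at h1 h2
  rw [pow_succ] at h2
  have h3 : 1 ≤ 2 ^ k := Nat.one_le_two_pow
  rcases Nat.eq_or_lt_of_le h1 with h4 | h4
  · have h5 : n = 2 ^ k - 1 := by omega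
    rw [h5, ruler_pow]
  · obtain ⟨p, rfl⟩ : ∃ p, n = 2 ^ k + p := ⟨n - 2 ^ k, by omega⟩
    rw [ruler_add k p (by omega), (good_pow sf hr k).h1 p (by omega)]
    exact ih p (by omega)

theorem letters_inj {y : ℕ → ℕ} (sf : SquareFree y) (hr : Rep y) :
    Function.Injective (fun k : ℕ => y (2 ^ k - 1)) := by
  have key : ∀ j k, j < k → y (2 ^ j - 1) ≠ y (2 ^ k - 1) := by
    intro j k hjk
    have h1 : 2 ^ j < 2 ^ k := Nat.pow_lt_pow_right (by norm_num) hjk
    have h2 : 1 ≤ 2 ^ j := Nat.one_le_two_pow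
    exact (good_pow sf hr k).h2 (2 ^ j - 1) (by omega)
  intro j k h
  rcases lt_trichotomy j k with h1 | h1 | h1
  · exact absurd h (key j k h1)
  · exact h1
  · exact absurd h.symm (key k j h1)

end Pool.Agent.R123.Nsc
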